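import Pool.Agent.Helper80.EC_D.Goals

/-!
# MP_ecc237_nt, Part D: packet DPN
-/

set_option autoImplicit false

open MeasureTheory Filter Topology Set

namespace EC237.PD.PkDPN

open EC237 EC237.PD

/-- the term of `hS` -/
noncomputable def hf (y : ℝ) (r m al : ℤ) (i : ℕ) (n : ℤ) : ℂ :=
  if InCl r (n, m) then PowerSeries.coeff i (hh (y:ℂ) ((n, m), al)) else 0

/-- the term of `xS` -/
noncomputable def xf (y : ℝ) (r m al : ℤ) (i : ℕ) (n : ℤ) : ℂ :=
  if InCl r (n, m) then PowerSeries.coeff i (xx (y:ℂ) ((n, m), al)) else 0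

theorem hf_sum (h1 : N1) {y : ℝ} (hy : 0 < y) (r m al : ℤ) (i : ℕ) :
    HasSum (hf y r m al i) (hS y r m al i) := (h1 y hy r m al i).1.hasSum

theorem xf_sum (h1 : N1) {y : ℝ} (hy : 0 < y) (r m al : ℤ) (i : ℕ) :
    HasSum (xf y r m al i) (xS y r m al i) := (h1 y hy r m al i).2.2.hasSum

theorem prod_sum {f g : ℤ → ℂ} {a b : ℂ} (hf : HasSum f a) (hg : HasSum g b) :
    HasSum (fun q : ℤ × ℤ => f q.1 * g q.2) (a * b) := by
  apply hf.mul hg
  exact summable_mul_of_summable_norm hf.summable.norm hg.summable.norm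

theorem prod_sum2 {f g : ℤ → ℂ} {a b : ℂ} (hf : HasSum f a) (hg : HasSum g b) :
    HasSum (fun q : ℤ × ℤ => f (q.1 + q.2) * g q.2) (a * b) := by
  have h := prod_sum hf hg
  let e : ℤ × ℤ ≃ ℤ × ℤ :=
    { toFun := fun q => (q.1 + q.2, q.2)
      invFun := fun q => (q.1 - q.2, q.2)
      left_inv := fun q => by simp
      right_inv := fun q => by simp }
  exact (e.hasSum_iff (f := fun q : ℤ × ℤ => f q.1 * g q.2)).2 h

theorem prod_sum1 {f g : ℤ → ℂ} {a b : ℂ} (hf : HasSum f a) (hg : HasSum g b) :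
    HasSum (fun q : ℤ × ℤ => f (q.1 + q.2) * g q.1) (a * b) := by
  have h := prod_sum hf hg
  let e : ℤ × ℤ ≃ ℤ × ℤ :=
    { toFun := fun q => (q.1 + q.2, q.1)
      invFun := fun q => (q.2, q.1 - q.2)
      left_inv := fun q => by simp
      right_inv := fun q => by simp }
  exact (e.hasSum_iff (f := fun q : ℤ × ℤ => f q.1 * g q.2)).2 h

theorem prod_sum' {f g : ℤ → ℂ} {a b : ℂ} (hf : HasSum f a) (hg : HasSum g b) :
    HasSum (fun q : ℤ × ℤ => f q.2 * g q.1) (a * b) := by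
  have h := prod_sum hg hf
  rw [mul_comm a b]
  refine h.congr_fun ?_
  intro q
  ring

theorem coeff_one_mul' (A B : PowerSeries ℂ) :
    PowerSeries.coeff 1 (A * B) = PowerSeries.coeff 0 A * PowerSeries.coeff 1 B +
      PowerSeries.coeff 1 A * PowerSeries.coeff 0 B := by
  rw [PowerSeries.coeff_mul]
  have : (Finset.HasAntidiagonal.antidiagonal (1:ℕ)) = {((0:ℕ), (1:ℕ)), (1, 0)} := by decide
  rw [this, Finset.sum_pair (by decide)]

theorem thm (h1 : EC237.N1) (h4 : EC237.N4) : EC237.PD.G_DPN := by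
  intro y hy r ma mb
  -- the twelve sums
  have H := fun (r m al : ℤ) (i : ℕ) => hf_sum h1 hy r m al i
  have K := fun (r m al : ℤ) (i : ℕ) => xf_sum h1 hy r m al i
  have t1 := (prod_sum' (H r mb (-1) 0) (K 1 ma 1 1)).add (prod_sum' (H r mb (-1) 1) (K 1 ma 1 0))
  have t2 := (prod_sum (H 1 ma 1 0) (K r mb (-1) 1)).add (prod_sum (H 1 ma 1 1) (K r mb (-1) 0))
  have t3 := (prod_sum2 (H (1 + r) (ma + mb) 0 0) (K r mb (-1) 1)).add
    (prod_sum2 (H (1 + r) (ma + mb) 0 1) (K r mb (-1) 0))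
  have t4 := (prod_sum2 (K (1 + r) (ma + mb) 0 1) (H r mb (-1) 0)).add
    (prod_sum2 (K (1 + r) (ma + mb) 0 0) (H r mb (-1) 1))
  have t5 := (prod_sum1 (K (1 + r) (ma + mb) 0 1) (H 1 ma 1 0)).add
    (prod_sum1 (K (1 + r) (ma + mb) 0 0) (H 1 ma 1 1))
  have t6 := (prod_sum1 (H (1 + r) (ma + mb) 0 0) (K 1 ma 1 1)).add
    (prod_sum1 (H (1 + r) (ma + mb) 0 1) (K 1 ma 1 0))
  have tt := ((t1.sub t2).add (t3.sub t4)).add (t5.sub t6)
  have hx0 : ∀ r m al : ℤ, xS y r m al 0 = 0 := fun r m al =>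
    (h4 y hy r m al).2.2.2.2.2.2.2.2.1 0 rfl
  have hh1 : ∀ r m al : ℤ, hS y r m al 1 = 0 := fun r m al =>
    ((h4 y hy r m al).2.2.2.2.2.2.2.1 1 rfl).1
  have hh0 : ∀ r m al : ℤ, hS y r m al 0 = V y r m := fun r m al => (h4 y hy r m al).2.2.1
  have hx1 : ∀ r m al : ℤ, xS y r m al 1 = (al : ℂ) * X y r m := fun r m al =>
    (h4 y hy r m al).2.2.2.2.2.2.1
  simp only [hx0, hh1, hh0, hx1] at tt
  have hval : F13 y r (ma, mb) = V y r mb * (((1:ℤ):ℂ) * X y 1 ma) + 0 * 0 -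
      (V y 1 ma * (((-1:ℤ):ℂ) * X y r mb) + 0 * 0) +
      (V y (1 + r) (ma + mb) * (((-1:ℤ):ℂ) * X y r mb) + 0 * 0 -
        (((0:ℤ):ℂ) * X y (1 + r) (ma + mb) * V y r mb + 0 * 0)) +
      (((0:ℤ):ℂ) * X y (1 + r) (ma + mb) * V y 1 ma + 0 * 0 -
        (V y (1 + r) (ma + mb) * (((1:ℤ):ℂ) * X y 1 ma) + 0 * 0)) := by
    simp only [F13]
    push_cast
    ring
  rw [hval]
  refine tt.congr_fun ?_
  rintro ⟨na, nb⟩
  have hs : (((na, ma), (1:ℤ)) : SV) + ((nb, mb), -1) = ((na + nb, ma + mb), 0) := by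
    simp [Prod.mk_add_mk]
  simp only [hf, xf, dP, hs]
  have hs1 : ∀ a b : ℤ, InCl 1 (na, ma) → InCl r (nb, mb) → InCl (1 + r) (na + nb, ma + mb) := by
    intro _ _ h1 h2
    simp only [InCl] at h1 h2 ⊢
    omega
  by_cases c1 : InCl 1 (na, ma)
  · by_cases c2 : InCl r (nb, mb)
    · have c3 := hs1 0 0 c1 c2
      rw [if_pos ⟨c1, c2⟩]
      simp only [if_pos c1, if_pos c2, if_pos c3]
      simp only [map_add, map_sub, coeff_one_mul']
      ring
    · have c3 : ¬ InCl (1 + r) (na + nb, ma + mb) := by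
        intro c3
        apply c2
        simp only [InCl] at c1 c3 ⊢
        omega
      rw [if_neg (fun h => c2 h.2)]
      simp only [if_neg c2, if_neg c3]
      ring
  · rw [if_neg (fun h => c1 h.1)]
    by_cases c2 : InCl r (nb, mb)
    · have c3 : ¬ InCl (1 + r) (na + nb, ma + mb) := by
        intro c3
        apply c1
        simp only [InCl] at c2 c3 ⊢
        omega
      simp only [if_neg c1, if_neg c3]
      ring
    · simp only [if_neg c1, if_neg c2]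
      ring

end EC237.PD.PkDPN
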